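import Pool.Agent.Q261.SC.Main72
import Pool.Agent.Q267.CDE.Res2

/-!
# MP_947403_nt

Supercongruences for the sums of `C(2k,k) C(4k,2k) / 72^k`: all three congruences of Q1.
-/

namespace Pool.Agent.Results.MP_947403_nt.Full

open Finset

/-- `r ≡ s (mod p^2)`: `p^2` divides the numerator of `r - s` written in lowest terms. -/
def Cong (p : ℕ) (r s : ℚ) : Prop := (p : ℤ) ^ 2 ∣ (r - s).num

/-- `A_p = ∑_{k<p} C(2k,k) C(4k,2k) 72^{-k}`. -/
def A (p : ℕ) : ℚ := ∑ k ∈ range p, ((2 * k).choose k : ℚ) * ((4 * k).choose (2 * k) : ℚ) / 72 ^ k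

/-- `B_p = ∑_{k<p} (1-k) C(2k,k) C(4k,2k) 72^{-k}`. -/
def B (p : ℕ) : ℚ :=
  ∑ k ∈ range p, (1 - (k : ℚ)) * ((2 * k).choose k : ℚ) * ((4 * k).choose (2 * k) : ℚ) / 72 ^ k

open Pool.Agent.Q267 Pool.Agent.Q267.CDE Pool.Agent.Q261.SC Q278.PI

theorem cong_of {p : ℕ} [hp : Fact p.Prime] {r s : ℚ} (a b : O p) (ha : (a : ℚ) = r)
    (hb : (b : ℚ) = s) (h : res2 p a = res2 p b) : Cong p r s := by
  subst ha hb
  exact cong_of_res2 p a b h

section

variable (p : ℕ) [hp : Fact p.Prime] (h3 : 3 < p)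

include h3

theorem h72 : ¬ (p : ℤ) ∣ 72 := by
  intro h
  have h' : (p : ℤ) ∣ 2 ^ 3 * 3 ^ 2 := by norm_num; exact h
  have hpi := Nat.prime_iff_prime_int.1 hp.out
  rcases hpi.dvd_or_dvd h' with h | h
  · have := Int.le_of_dvd (by norm_num) (hpi.dvd_of_dvd_pow h)
    omega
  · have := Int.le_of_dvd (by norm_num) (hpi.dvd_of_dvd_pow h)
    omega

theorem A_res : ∃ a : O p, (a : ℚ) = A p ∧ res2 p a = SA p (res2 p (invI p 72)) := by
  have h := h72 p h3
  refine ⟨∑ k ∈ range p, ((((4 * k).choose (2 * k) * (2 * k).choose k : ℕ) : O p) * (invI p 72) ^ k), ?_, ?_⟩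
  · unfold A
    push_cast
    refine sum_congr rfl fun k _ => ?_
    rw [invI_coe p 72 h]
    push_cast
    rw [inv_pow, div_eq_mul_inv]
    ring
  · unfold SA
    simp only [map_sum, map_mul, map_pow, map_natCast]

theorem B_res : ∃ a : O p, (a : ℚ) = B p ∧
    res2 p a = SA p (res2 p (invI p 72)) - SB p (res2 p (invI p 72)) := by
  have h := h72 p h3
  refine ⟨∑ k ∈ range p, (1 - (k : O p)) *
    ((((4 * k).choose (2 * k) * (2 * k).choose k : ℕ) : O p) * (invI p 72) ^ k), ?_, ?_⟩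
  · unfold B
    push_cast
    refine sum_congr rfl fun k _ => ?_
    rw [invI_coe p 72 h]
    push_cast
    rw [inv_pow, div_eq_mul_inv]
    ring
  · unfold SA SB
    rw [← sum_sub_distrib, map_sum]
    refine sum_congr rfl fun k _ => ?_
    simp only [map_mul, map_pow, map_natCast, map_sub, map_one]
    ring

theorem leg_three {m : ℕ} (hpm : p = 2 * m + 1) : (3 : ZMod p) ^ m = ((legendreSym p 3 : ℤ) : ZMod p) ∧
    legendreSym p 3 * legendreSym p 3 = 1 := by
  have h := legendreSym.eq_pow p 3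
  refine ⟨?_, ?_⟩
  · rw [h, show p / 2 = m by omega]
    push_cast
    rfl
  · have h30 : ((3 : ℤ) : ZMod p) ≠ 0 := by
      have := cast_ne p 3 (by omega) (by omega)
      push_cast at this ⊢
      exact this
    have := legendreSym.sq_one p h30
    rw [sq] at this
    exact this

omit h3 in
theorem leg_six : jacobiSym 6 p = legendreSym p 2 * legendreSym p 3 := by
  rw [← jacobiSym.legendreSym.to_jacobiSym, ← legendreSym.mul]
  norm_num

omit h3 in
theorem leg_two_one (n : ℕ) (hpn : p = 2 * (2 * n) + 1) : legendreSym p 2 = (-1) ^ n := by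
  rw [legendreSym.at_two (by omega), ZMod.χ₈_nat_eq_if_mod_eight]
  rcases Nat.even_or_odd n with h | h
  · rw [h.neg_one_pow]
    obtain ⟨j, hj⟩ := h
    rw [if_neg (by omega), if_pos (by omega)]
  · rw [h.neg_one_pow]
    obtain ⟨j, hj⟩ := h
    rw [if_neg (by omega), if_neg (by omega)]

theorem leg_two_three (j : ℕ) (hpj : p = 2 * (2 * j + 1) + 1) : legendreSym p 2 = (-1) ^ (j + 1) := by
  rw [legendreSym.at_two (by omega), ZMod.χ₈_nat_eq_if_mod_eight]
  rcases Nat.even_or_odd (j + 1) with h | h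
  · rw [h.neg_one_pow]
    obtain ⟨i, hi⟩ := h
    rw [if_neg (by omega), if_pos (by omega)]
  · rw [h.neg_one_pow]
    obtain ⟨i, hi⟩ := h
    rw [if_neg (by omega), if_neg (by omega)]

end

/-- **MP_947403_nt, Q1.** For every prime `p > 3`: if `p ≡ 1 (mod 4)` and `p = x² + y²` with
`x ≡ 1 (mod 4)`, then `A_p ≡ (6/p) (2x - p/(2x))` and `B_p ≡ (6/p) x` modulo `p²`; if
`p ≡ 3 (mod 4)`, then `A_p ≡ (6/p) 2p / (3 C((p+1)/2, (p+1)/4))` modulo `p²`. -/
theorem result (p : ℕ) (hp' : p.Prime) (h3 : 3 < p) :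
    (p % 4 = 1 → ∀ x y : ℤ, (p : ℤ) = x ^ 2 + y ^ 2 → x % 4 = 1 →
      Cong p (A p) ((jacobiSym 6 p : ℚ) * (2 * (x : ℚ) - p / (2 * (x : ℚ)))) ∧
      Cong p (B p) ((jacobiSym 6 p : ℚ) * (x : ℚ))) ∧
    (p % 4 = 3 →
      Cong p (A p) ((jacobiSym 6 p : ℚ) *
        (2 * (p : ℚ) / (3 * ((2 * ((p + 1) / 4)).choose ((p + 1) / 4) : ℚ))))) := by
  have hp := Fact.mk hp'
  have hpi := Nat.prime_iff_prime_int.1 hp'
  have hc := res2_invI p 72 (h72 p h3)
  push_cast at hc
  have hj6 := leg_six p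
  refine ⟨?_, ?_⟩
  · intro h1 x y hxy hx
    obtain ⟨n, hpn⟩ : ∃ n, p = 2 * (2 * n) + 1 := ⟨p / 4, by omega⟩
    have hn : 0 < n := by omega
    have hxd : ¬ (p : ℤ) ∣ x := by
      intro h
      have hx0 : x ≠ 0 := by omega
      have h1 := Int.le_of_dvd (by positivity) ((dvd_abs _ _).2 h)
      have h2 : (p : ℤ) ^ 2 ≤ x ^ 2 := by
        rw [← sq_abs x]
        exact pow_le_pow_left₀ (by positivity) h1 2
      nlinarith [sq_nonneg y]
    have h2x : ¬ (p : ℤ) ∣ 2 * x := by
      intro h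
      rcases hpi.dvd_or_dvd h with h | h
      · have := Int.le_of_dvd (by norm_num) h
        omega
      · exact hxd h
    have hI := res2_invI p (2 * x) h2x
    push_cast at hI
    obtain ⟨hl, hl2⟩ := leg_three p h3 hpn
    have hD := gauss_val p n hn hpn h3 x y hxy hx (res2 p (invI p (2 * x))) hI
    have hpp := CDE.p_sq p
    set I := res2 p (invI p (2 * x)) with hIdef
    have hs : ((-1 : R p)) ^ n * (-1) ^ n = 1 := by rw [← mul_pow]; norm_num
    have hDI : D0 p (2 * n) 1 * ((-1) ^ n * (I + p * I ^ 3)) = 1 := by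
      rw [hD]
      linear_combination ((2 * x - p * I) * (I + p * I ^ 3)) * hs + (1 + p * I ^ 2) * hI - I ^ 4 * hpp
    obtain ⟨hA, hB⟩ := case_one p n hpn h3 (legendreSym p 3) hl2 hl (res2 p (invI p 72)) hc _ hDI
    have hj : ((jacobiSym 6 p : ℤ) : R p) = (-1) ^ n * ((legendreSym p 3 : ℤ) : R p) := by
      rw [hj6, leg_two_one p n hpn]
      push_cast
      ring
    refine ⟨?_, ?_⟩
    · obtain ⟨a, ha, hra⟩ := A_res p h3
      refine cong_of a ((jacobiSym 6 p : O p) * (2 * (x : O p) - (p : O p) * invI p (2 * x))) ha ?_ ?_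
      · push_cast
        rw [invI_coe p _ h2x]
        push_cast
        rw [div_eq_mul_inv]
        rfl
      · rw [hra, hA, hD]
        simp only [map_mul, map_sub, map_natCast, map_intCast, map_ofNat]
        rw [hj, ← hIdef]
        ring
    · obtain ⟨a, ha, hra⟩ := B_res p h3
      refine cong_of a ((jacobiSym 6 p : O p) * (x : O p)) ha ?_ ?_
      · push_cast
        rfl
      · rw [hra]
        simp only [map_mul, map_intCast]
        rw [hj]
        have h2u : IsUnit (2 : R p) := by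
          have := isUnit_nat p 2 (by omega) (by omega)
          exact_mod_cast this
        apply h2u.mul_left_cancel
        rw [hB, hD]
        linear_combination (((legendreSym p 3 : ℤ) : R p) * (-1) ^ n * I ^ 3) * hpp
  · intro h1
    obtain ⟨j, hpj⟩ : ∃ j, p = 2 * (2 * j + 1) + 1 := ⟨p / 4, by omega⟩
    obtain ⟨hl, hl2⟩ := leg_three p h3 hpj
    have hcase := case_three p j hpj h3 (legendreSym p 3) hl2 hl (res2 p (invI p 72)) hc
    have hj : ((jacobiSym 6 p : ℤ) : R p) = (-1) ^ (j + 1) * ((legendreSym p 3 : ℤ) : R p) := by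
      rw [hj6, leg_two_three p h3 j hpj]
      push_cast
      ring
    have he : (p + 1) / 4 = j + 1 := by omega
    have hcb : (2 * (j + 1)).choose (j + 1) = (j + 1).centralBinom := rfl
    have hd : ¬ (p : ℤ) ∣ 3 * ((j + 1).centralBinom : ℤ) := by
      intro h
      rcases hpi.dvd_or_dvd h with h | h
      · have := Int.le_of_dvd (by norm_num) h
        omega
      · have h5 : p ∣ (j + 1).centralBinom := by exact_mod_cast h
        have h6 : (j + 1).centralBinom ∣ (2 * (j + 1)).factorial := by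
          have := Nat.choose_mul_factorial_mul_factorial (show j + 1 ≤ 2 * (j + 1) by omega)
          exact ⟨(j + 1).factorial * (2 * (j + 1) - (j + 1)).factorial, by rw [← this, hcb]; ring⟩
        have h7 := (hp'.dvd_factorial).1 (h5.trans h6)
        omega
    have hI := res2_invI p _ hd
    push_cast at hI
    obtain ⟨a, ha, hra⟩ := A_res p h3
    refine cong_of a ((jacobiSym 6 p : O p) * (2 * (p : O p) * invI p (3 * ((j + 1).centralBinom : ℤ)))) ha ?_ ?_
    · push_cast
      rw [invI_coe p _ hd, he, hcb]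
      push_cast
      rw [div_eq_mul_inv]
      rfl
    · rw [hra]
      simp only [map_mul, map_natCast, map_intCast, map_ofNat]
      rw [hj]
      set I := res2 p (invI p (3 * ((j + 1).centralBinom : ℤ))) with hIdef
      have hs : ((-1 : R p)) ^ (j + 1) * (-1) ^ (j + 1) = 1 := by rw [← mul_pow]; norm_num
      linear_combination (-(SA p (res2 p (invI p 72)))) * hI + ((-1) ^ (j + 1) * I) * hcase -
        (3 * ((j + 1).centralBinom : R p) * SA p (res2 p (invI p 72)) * I) * hs

end Pool.Agent.Results.MP_947403_nt.Full
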